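import Mathlib

/-!
# Cycles and paths of a graph as edge sets
-/

set_option autoImplicit false
open SimpleGraph Filter Topology

namespace Pool.Agent.W2helper36.CY

variable {V W : Type}

/-- the edge sets of the cycles of `G` -/
def cycles (G : SimpleGraph V) : Set (Set (Sym2 V)) :=
  {E | ∃ (v : V) (w : G.Walk v v), w.IsCycle ∧ w.edgeSet = E}

/-- the edge sets of the paths of `G` from `s` to `t` -/
def paths (G : SimpleGraph V) (s t : V) : Set (Set (Sym2 V)) :=
  {E | ∃ w : G.Walk s t, w.IsPath ∧ w.edgeSet = E}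

/-- the numbers of cycles of graphs with `m` edges -/
def CS (m : ℕ) : Set ℕ :=
  {k | ∃ (V : Type) (_ : Finite V) (G : SimpleGraph V), G.edgeSet.ncard = m ∧
    k = (cycles G).ncard}

/-- the numbers of paths between two vertices of graphs with `m` edges -/
def QS (m : ℕ) : Set ℕ :=
  {k | ∃ (V : Type) (_ : Finite V) (G : SimpleGraph V) (s t : V), G.edgeSet.ncard = m ∧
    k = (paths G s t).ncard}

theorem edgeSet_walk_subset {G : SimpleGraph V} {u v : V} (w : G.Walk u v) :
    w.edgeSet ⊆ G.edgeSet := fun _ he => w.edges_subset_edgeSet he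

theorem ncard_le_pow [Finite V] {G : SimpleGraph V} {S : Set (Set (Sym2 V))}
    (h : ∀ E ∈ S, E ⊆ G.edgeSet) : S.ncard ≤ 2 ^ G.edgeSet.ncard := by
  have h1 : S ⊆ 𝒫 G.edgeSet := h
  have h2 := Set.ncard_le_ncard h1 (Set.toFinite _)
  rwa [Set.ncard_powerset _ (Set.toFinite _)] at h2

theorem cs_le {m k : ℕ} (h : k ∈ CS m) : k ≤ 2 ^ m := by
  obtain ⟨V, _, G, hm, rfl⟩ := h
  rw [← hm]
  refine ncard_le_pow fun E hE => ?_
  obtain ⟨v, w, _, rfl⟩ := hE
  exact edgeSet_walk_subset w

theorem qs_le {m k : ℕ} (h : k ∈ QS m) : k ≤ 2 ^ m := by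
  obtain ⟨V, _, G, s, t, hm, rfl⟩ := h
  rw [← hm]
  refine ncard_le_pow fun E hE => ?_
  obtain ⟨w, _, rfl⟩ := hE
  exact edgeSet_walk_subset w

theorem bdd_cs (m : ℕ) : BddAbove (CS m) := ⟨2 ^ m, fun _ h => cs_le h⟩

theorem bdd_qs (m : ℕ) : BddAbove (QS m) := ⟨2 ^ m, fun _ h => qs_le h⟩

/-- the largest number of cycles -/
noncomputable def c (m : ℕ) : ℕ := sSup (CS m)

/-- the largest number of paths -/
noncomputable def q (m : ℕ) : ℕ := sSup (QS m)

/-! ### Cycles through an edge -/

theorem split_edge {G : SimpleGraph V} {a b u v : V} (w : G.Walk a b) (h : s(u, v) ∈ w.edges) :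
    (∃ (p : G.Walk a u) (huv : G.Adj u v) (r : G.Walk v b), w = p.append (Walk.cons huv r)) ∨
    (∃ (p : G.Walk a v) (huv : G.Adj v u) (r : G.Walk u b), w = p.append (Walk.cons huv r)) := by
  induction w with
  | nil => simp at h
  | @cons x y z hxy w ih =>
    rw [Walk.edges_cons, List.mem_cons] at h
    rcases h with h | h
    · rw [Sym2.eq_iff] at h
      rcases h with ⟨rfl, rfl⟩ | ⟨rfl, rfl⟩
      · exact Or.inl ⟨Walk.nil, hxy, w, rfl⟩
      · exact Or.inr ⟨Walk.nil, hxy, w, rfl⟩
    · rcases ih h with ⟨p, huv, r, rfl⟩ | ⟨p, huv, r, rfl⟩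
      · exact Or.inl ⟨Walk.cons hxy p, huv, r, rfl⟩
      · exact Or.inr ⟨Walk.cons hxy p, huv, r, rfl⟩

theorem path_of_split {G : SimpleGraph V} {x u v : V} {p : G.Walk x u} {huv : G.Adj u v}
    {r : G.Walk v x} (h : (p.append (Walk.cons huv r)).IsCycle) :
    (r.append p).IsPath ∧ s(u, v) ∉ (r.append p).edges := by
  have h1 := h.1.1.edges_nodup
  have h2 := h.2
  constructor
  · refine Walk.IsPath.mk' ?_
    rw [Walk.support_append]
    rw [Walk.support_append, Walk.support_cons, List.tail_cons,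
      List.tail_append_of_ne_nil p.support_ne_nil] at h2
    exact (List.perm_append_comm.nodup_iff).1 h2
  · rw [Walk.edges_append, Walk.edges_cons] at h1
    rw [Walk.edges_append]
    intro h3
    have h4 : (s(u, v) :: (r.edges ++ p.edges)).Nodup := by
      refine (List.Perm.nodup_iff ?_).1 h1
      refine List.perm_append_comm.trans ?_
      simp
    exact (List.nodup_cons.1 h4).1 h3

theorem del_mem {G : SimpleGraph V} {u v : V} {E : Set (Sym2 V)} (hE : E ∈ cycles G)
    (he : s(u, v) ∈ E) : E \ {s(u, v)} ∈ paths (G.deleteEdges {s(u, v)}) u v := by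
  obtain ⟨x, w, hw, rfl⟩ := hE
  rcases split_edge w he with ⟨p, huv, r, rfl⟩ | ⟨p, huv, r, rfl⟩
  · obtain ⟨h1, h2⟩ := path_of_split hw
    have h3 : ∀ e, e ∈ (r.append p).edges → e ∈ (G.deleteEdges {s(u, v)}).edgeSet := by
      intro e he'
      rw [edgeSet_deleteEdges]
      exact ⟨Walk.edges_subset_edgeSet _ he', fun h4 => h2 (by rwa [← Set.mem_singleton_iff.1 h4])⟩
    refine ⟨((r.append p).transfer _ h3).reverse, (h1.transfer h3).reverse, ?_⟩
    rw [Walk.edgeSet_reverse, Walk.edgeSet_transfer]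
    ext e
    rw [Set.mem_diff, Walk.mem_edgeSet, Walk.mem_edgeSet, Set.mem_singleton_iff,
      Walk.edges_append, Walk.edges_append, Walk.edges_cons]
    rw [Walk.edges_append] at h2
    simp only [List.mem_append, List.mem_cons] at h2 ⊢
    constructor
    · intro h
      refine ⟨by tauto, fun h' => h2 (by rwa [← h'])⟩
    · tauto
  · obtain ⟨h1, h2⟩ := path_of_split hw
    rw [Sym2.eq_swap] at h2
    have h3 : ∀ e, e ∈ (r.append p).edges → e ∈ (G.deleteEdges {s(u, v)}).edgeSet := by
      intro e he'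
      rw [edgeSet_deleteEdges]
      exact ⟨Walk.edges_subset_edgeSet _ he', fun h4 => h2 (by rwa [← Set.mem_singleton_iff.1 h4])⟩
    refine ⟨(r.append p).transfer _ h3, h1.transfer h3, ?_⟩
    rw [Walk.edgeSet_transfer]
    ext e
    rw [Set.mem_diff, Walk.mem_edgeSet, Walk.mem_edgeSet, Set.mem_singleton_iff,
      Walk.edges_append, Walk.edges_append, Walk.edges_cons, Sym2.eq_swap (a := v)]
    rw [Walk.edges_append] at h2
    simp only [List.mem_append, List.mem_cons] at h2 ⊢
    constructor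
    · intro h
      refine ⟨by tauto, fun h' => h2 (by rwa [← h'])⟩
    · tauto

theorem through_le [Finite V] {G : SimpleGraph V} {m : ℕ} (hm : G.edgeSet.ncard = m + 1)
    {e : Sym2 V} (he : e ∈ G.edgeSet) : {E ∈ cycles G | e ∈ E}.ncard ≤ q m := by
  induction e using Sym2.ind with
  | _ u v =>
    have h1 : (paths (G.deleteEdges {s(u, v)}) u v).ncard ≤ q m := by
      refine le_csSup (bdd_qs m) ⟨V, inferInstance, _, u, v, ?_, rfl⟩
      rw [edgeSet_deleteEdges, Set.ncard_diff_singleton_of_mem he, hm]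
      rfl
    refine le_trans ?_ h1
    refine Set.ncard_le_ncard_of_injOn (fun E => E \ {s(u, v)}) (fun E hE => del_mem hE.1 hE.2)
      ?_ (Set.toFinite _)
    intro E hE F hF h
    simp only at h
    have e1 : E = insert s(u, v) (E \ {s(u, v)}) := by
      rw [Set.insert_diff_singleton, Set.insert_eq_of_mem hE.2]
    have e2 : F = insert s(u, v) (F \ {s(u, v)}) := by
      rw [Set.insert_diff_singleton, Set.insert_eq_of_mem hF.2]
    rw [e1, e2, h]

theorem three_le {G : SimpleGraph V} {E : Set (Sym2 V)} (hE : E ∈ cycles G) :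
    3 ≤ E.ncard := by
  classical
  obtain ⟨x, w, hw, rfl⟩ := hE
  have h1 : w.edgeSet = (w.edges.toFinset : Set (Sym2 V)) := by
    ext e
    simp
  rw [h1, Set.ncard_coe_finset, List.toFinset_card_of_nodup hw.1.1.edges_nodup, Walk.length_edges]
  exact hw.three_le_length

theorem three_mul_le [Finite V] {G : SimpleGraph V} {m : ℕ} (hm : G.edgeSet.ncard = m + 1) :
    3 * (cycles G).ncard ≤ (m + 1) * q m := by
  classical
  have hfc : (cycles G).Finite := Set.toFinite _
  have hfe : G.edgeSet.Finite := Set.toFinite _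
  set C := hfc.toFinset with hC
  set T := hfe.toFinset with hT
  have h1 : ∑ E ∈ C, (T.filter fun e => e ∈ E).card = ∑ e ∈ T, (C.filter fun E => e ∈ E).card :=
    (Finset.sum_card_bipartiteAbove_eq_sum_card_bipartiteBelow (fun (e : Sym2 V) E => e ∈ E)).symm
  have h2 : ∀ E ∈ C, 3 ≤ (T.filter fun e => e ∈ E).card := by
    intro E hE
    have hE' : E ∈ cycles G := (Set.Finite.mem_toFinset _).1 hE
    refine (three_le hE').trans ?_
    have h3 : E = ((T.filter fun e => e ∈ E : Finset (Sym2 V)) : Set (Sym2 V)) := by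
      ext e
      obtain ⟨x, w, hw, rfl⟩ := hE'
      rw [Finset.coe_filter, hT]
      simp only [Set.Finite.mem_toFinset, Set.mem_setOf_eq]
      exact ⟨fun h => ⟨edgeSet_walk_subset w h, h⟩, fun h => h.2⟩
    rw [← Set.ncard_coe_finset, ← h3]
  have h3 : ∀ e ∈ T, (C.filter fun E => e ∈ E).card ≤ q m := by
    intro e he
    have he' : e ∈ G.edgeSet := (Set.Finite.mem_toFinset _).1 he
    refine le_trans (le_of_eq ?_) (through_le hm he')
    rw [← Set.ncard_coe_finset]
    congr 1
    ext E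
    simp [hC]
  have h4 : C.card * 3 ≤ ∑ E ∈ C, (T.filter fun e => e ∈ E).card := by
    rw [← smul_eq_mul]
    exact Finset.card_nsmul_le_sum _ _ _ h2
  have h5 : ∑ e ∈ T, (C.filter fun E => e ∈ E).card ≤ T.card * q m := by
    rw [← smul_eq_mul]
    exact Finset.sum_le_card_nsmul _ _ _ h3
  have h6 : C.card = (cycles G).ncard := (Set.ncard_eq_toFinset_card _ hfc).symm
  have h7 : T.card = m + 1 := by rw [← hm]; exact (Set.ncard_eq_toFinset_card _ hfe).symm
  rw [h6] at h4
  rw [h7] at h5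
  linarith

theorem c_upper (m : ℕ) : 3 * c (m + 1) ≤ (m + 1) * q m := by
  rcases (CS (m + 1)).eq_empty_or_nonempty with h | h
  · unfold c
    rw [h]
    simp
  · obtain ⟨V, _, G, hm, hk⟩ := Nat.sSup_mem h (bdd_cs _)
    unfold c
    rw [hk]
    exact three_mul_le hm

end Pool.Agent.W2helper36.CY
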