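import Pool.Agent.W2helper36.CY.A

/-!
# Gluing two graphs at a vertex, and closing a path to a cycle
-/

set_option autoImplicit false
open SimpleGraph Filter Topology

namespace Pool.Agent.W2helper36.CY

variable {V W : Type}

open Classical in
/-- the embedding of the second vertex set: `s` is sent to the vertex `t` of the first graph -/
noncomputable def emb (t : V) (s : W) : W ↪ V ⊕ W where
  toFun x := if x = s then Sum.inl t else Sum.inr x
  inj' := by
    intro x y h
    simp only at h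
    split_ifs at h with h1 h2 h2
    · rw [h1, h2]
    · exact Sum.inr.inj h

theorem emb_self (t : V) (s : W) : emb t s s = Sum.inl t := if_pos rfl

theorem emb_inl {t : V} {s : W} {x : W} {a : V} (h : emb t s x = Sum.inl a) : x = s := by
  by_contra hx
  have h1 : emb t s x = Sum.inr x := if_neg hx
  rw [h1] at h
  simp at h

/-- two graphs glued at a vertex -/
noncomputable def glue (G : SimpleGraph V) (t : V) (H : SimpleGraph W) (s : W) :
    SimpleGraph (V ⊕ W) :=
  G.map (Function.Embedding.inl : V ↪ V ⊕ W) ⊔ H.map (emb t s)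

variable (G : SimpleGraph V) (t : V) (H : SimpleGraph W) (s : W)

theorem glue_edges : (glue G t H s).edgeSet =
    (Function.Embedding.inl : V ↪ V ⊕ W).sym2Map '' G.edgeSet ∪
      (emb t s).sym2Map '' H.edgeSet := by
  unfold glue
  rw [edgeSet_sup, edgeSet_map, edgeSet_map]

theorem glue_disj : Disjoint ((Function.Embedding.inl : V ↪ V ⊕ W).sym2Map '' G.edgeSet)
    ((emb t s).sym2Map '' H.edgeSet) := by
  rw [Set.disjoint_left]
  rintro e ⟨e1, _, rfl⟩ ⟨e2, h2, h⟩
  induction e1 using Sym2.ind with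
  | _ a b =>
    induction e2 using Sym2.ind with
    | _ x y =>
      simp only [Function.Embedding.sym2Map_apply, Sym2.map_mk, Sym2.eq_iff] at h
      have hxy : x ≠ y := fun h3 => by
        rw [mem_edgeSet, h3] at h2
        exact H.irrefl h2
      rcases h with ⟨h3, h4⟩ | ⟨h3, h4⟩
      · exact hxy ((emb_inl h3).trans (emb_inl h4).symm)
      · exact hxy ((emb_inl h3).trans (emb_inl h4).symm)

theorem glue_ncard [Finite V] [Finite W] :
    (glue G t H s).edgeSet.ncard = G.edgeSet.ncard + H.edgeSet.ncard := by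
  rw [glue_edges, Set.ncard_union_eq (glue_disj G t H s) (Set.toFinite _) (Set.toFinite _),
    Set.ncard_image_of_injective _ (Function.Embedding.injective _),
    Set.ncard_image_of_injective _ (Function.Embedding.injective _)]

/-- the inclusion of the first graph -/
def hom1 : G →g glue G t H s where
  toFun := Sum.inl
  map_rel' := by
    intro a b h
    exact Or.inl ((map_adj _ _ _ _).2 ⟨a, b, h, rfl, rfl⟩)

/-- the inclusion of the second graph -/
noncomputable def hom2 : H →g glue G t H s where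
  toFun := emb t s
  map_rel' := by
    intro a b h
    exact Or.inr ((map_adj _ _ _ _).2 ⟨a, b, h, rfl, rfl⟩)

variable {G t H s}

theorem exists_map1 {s1 : V} (p : G.Walk s1 t) :
    ∃ p' : (glue G t H s).Walk (Sum.inl s1) (Sum.inl t),
      p'.support = p.support.map Sum.inl ∧ p'.edgeSet = Sym2.map Sum.inl '' p.edgeSet :=
  ⟨p.map (hom1 G t H s), Walk.support_map _ _, Walk.edgeSet_map _ _⟩

theorem exists_map2 {t2 : W} (r : H.Walk s t2) :
    ∃ r' : (glue G t H s).Walk (Sum.inl t) (emb t s t2),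
      r'.support = r.support.map (emb t s) ∧ r'.edgeSet = Sym2.map (emb t s) '' r.edgeSet :=
  ⟨(r.map (hom2 G t H s)).copy (emb_self t s) rfl,
    (Walk.support_copy _ _ _).trans (Walk.support_map _ _),
    (Walk.edgeSet_copy _ _ _).trans (Walk.edgeSet_map _ _)⟩

theorem glue_mem {s1 : V} {t2 : W} {E : Set (Sym2 V)} {F : Set (Sym2 W)} (hE : E ∈ paths G s1 t)
    (hF : F ∈ paths H s t2) :
    (Function.Embedding.inl : V ↪ V ⊕ W).sym2Map '' E ∪ (emb t s).sym2Map '' F ∈
      paths (glue G t H s) (Sum.inl s1) (emb t s t2) := by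
  obtain ⟨p, hp, rfl⟩ := hE
  obtain ⟨r, hr, rfl⟩ := hF
  obtain ⟨p', hp1, hp2⟩ := exists_map1 (H := H) (s := s) p
  obtain ⟨r', hr1, hr2⟩ := exists_map2 (G := G) (t := t) r
  refine ⟨p'.append r', ?_, ?_⟩
  · refine Walk.IsPath.mk' ?_
    rw [Walk.support_append, hp1, hr1]
    have h1 := hr.support_nodup
    rw [← Walk.cons_tail_support] at h1
    have h2 := List.nodup_cons.1 h1
    rw [List.nodup_append']
    refine ⟨hp.support_nodup.map Sum.inl_injective, ?_, ?_⟩
    · rw [← List.map_tail]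
      exact h2.2.map (emb t s).injective
    · rw [← List.map_tail]
      intro x hx hx'
      obtain ⟨a, _, rfl⟩ := List.mem_map.1 hx
      obtain ⟨b, hb, h3⟩ := List.mem_map.1 hx'
      have h4 : b = s := emb_inl h3
      rw [h4] at hb
      exact h2.1 hb
  · rw [Walk.edgeSet_append, hp2, hr2]
    rfl

theorem union_sub {α β γ : Type} {f : α → γ} {g : β → γ} (hf : Function.Injective f)
    (hg : Function.Injective g) {A : Set α} {B : Set β} (hd : Disjoint (f '' A) (g '' B))
    {E E' : Set α} {F F' : Set β} (hE : E ⊆ A) (hE' : E' ⊆ A) (hF : F ⊆ B) (hF' : F' ⊆ B)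
    (h : f '' E ∪ g '' F ⊆ f '' E' ∪ g '' F') : E ⊆ E' ∧ F ⊆ F' := by
  rw [Set.disjoint_left] at hd
  constructor
  · intro x hx
    rcases h (Or.inl ⟨x, hx, rfl⟩) with ⟨y, hy, hxy⟩ | ⟨y, hy, hxy⟩
    · rwa [← hf hxy]
    · exact absurd ⟨y, hF' hy, hxy⟩ (hd ⟨x, hE hx, rfl⟩)
  · intro x hx
    rcases h (Or.inr ⟨x, hx, rfl⟩) with ⟨y, hy, hxy⟩ | ⟨y, hy, hxy⟩
    · exact absurd ⟨x, hF hx, rfl⟩ (hd ⟨y, hE' hy, hxy⟩)
    · rwa [← hg hxy]

/-- there is a graph with `m` edges and at least `k` paths between two of its vertices -/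
def R (m k : ℕ) : Prop := ∃ (V : Type) (_ : Finite V) (G : SimpleGraph V) (s t : V),
  G.edgeSet.ncard = m ∧ k ≤ (paths G s t).ncard

theorem paths_sub {G : SimpleGraph V} {s t : V} {E : Set (Sym2 V)} (h : E ∈ paths G s t) :
    E ⊆ G.edgeSet := by
  obtain ⟨w, _, rfl⟩ := h
  exact edgeSet_walk_subset w

theorem R_mul {a b k l : ℕ} (h : R a k) (h' : R b l) : R (a + b) (k * l) := by
  obtain ⟨V, _, G, s1, t, hm, hk⟩ := h
  obtain ⟨W, _, H, s, t2, hm', hl⟩ := h'
  refine ⟨V ⊕ W, inferInstance, glue G t H s, Sum.inl s1, emb t s t2, ?_, ?_⟩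
  · rw [glue_ncard, hm, hm']
  · refine (Nat.mul_le_mul hk hl).trans ?_
    rw [← Set.ncard_prod]
    refine Set.ncard_le_ncard_of_injOn (fun x : Set (Sym2 V) × Set (Sym2 W) =>
      (Function.Embedding.inl : V ↪ V ⊕ W).sym2Map '' x.1 ∪ (emb t s).sym2Map '' x.2)
      (fun x hx => glue_mem hx.1 hx.2) ?_ (Set.toFinite _)
    rintro ⟨E, F⟩ hx ⟨E', F'⟩ hx' h
    simp only at h
    have i1 : Function.Injective (Function.Embedding.inl : V ↪ V ⊕ W).sym2Map :=
      Function.Embedding.injective _
    have i2 : Function.Injective (emb t s).sym2Map := Function.Embedding.injective _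
    have h1 := union_sub i1 i2 (glue_disj G t H s) (paths_sub hx.1)
      (paths_sub hx'.1) (paths_sub hx.2) (paths_sub hx'.2) h.le
    have h2 := union_sub i1 i2 (glue_disj G t H s) (paths_sub hx'.1)
      (paths_sub hx.1) (paths_sub hx'.2) (paths_sub hx.2) h.ge
    rw [Prod.mk.injEq]
    exact ⟨h1.1.antisymm h2.1, h1.2.antisymm h2.2⟩

theorem R_zero : R 0 1 := by
  refine ⟨Unit, inferInstance, ⊥, (), (), by simp, ?_⟩
  refine (Set.ncard_pos (Set.toFinite _)).2 ?_
  exact ⟨∅, Walk.nil, Walk.IsPath.nil, Walk.edgeSet_nil _⟩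

theorem R_one : R 1 1 := by
  refine ⟨Bool, inferInstance, ⊤, false, true, ?_, ?_⟩
  · rw [Set.ncard_eq_one]
    refine ⟨s(false, true), ?_⟩
    ext e
    induction e using Sym2.ind with
    | _ a b => cases a <;> cases b <;> simp
  · refine (Set.ncard_pos (Set.toFinite _)).2 ?_
    have h : (⊤ : SimpleGraph Bool).Adj false true := by simp
    refine ⟨_, Walk.cons h Walk.nil, ?_, rfl⟩
    simp

theorem R_pos (m : ℕ) : R m 1 := by
  induction m with
  | zero => exact R_zero
  | succ m ih => exact R_mul ih R_one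

theorem R_le {m k : ℕ} (h : R m k) : k ≤ q m := by
  obtain ⟨V, _, G, s, t, hm, hk⟩ := h
  exact hk.trans (le_csSup (bdd_qs m) ⟨V, inferInstance, G, s, t, hm, rfl⟩)

theorem R_q (m : ℕ) : R m (q m) := by
  obtain ⟨V, _, G, s, t, hm, _⟩ := R_pos m
  have hne : (QS m).Nonempty := ⟨_, V, inferInstance, G, s, t, hm, rfl⟩
  obtain ⟨V, _, G, s, t, hm, hk⟩ := Nat.sSup_mem hne (bdd_qs m)
  exact ⟨V, inferInstance, G, s, t, hm, hk.le⟩

theorem q_pos (m : ℕ) : 1 ≤ q m := R_le (R_pos m)

theorem q_mul (a b : ℕ) : q a * q b ≤ q (a + b) := R_le (R_mul (R_q a) (R_q b))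

theorem q_le (m : ℕ) : q m ≤ 2 ^ m := by
  obtain ⟨V, _, G, s, t, hm, _⟩ := R_pos m
  have hne : (QS m).Nonempty := ⟨_, V, inferInstance, G, s, t, hm, rfl⟩
  exact qs_le (Nat.sSup_mem hne (bdd_qs m))

/-! ### Closing -/

/-- the three additional edges -/
def three (s t : V) : Set (Sym2 (V ⊕ Bool)) :=
  {s(Sum.inl t, Sum.inr false), s(Sum.inr false, Sum.inr true), s(Sum.inr true, Sum.inl s)}

/-- `G` with a path of three edges added between `s` and `t` -/
def close (G : SimpleGraph V) (s t : V) : SimpleGraph (V ⊕ Bool) :=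
  G.map (Function.Embedding.inl : V ↪ V ⊕ Bool) ⊔ fromEdgeSet (three s t)

theorem three_diag {s t : V} : three s t \ {e | e.IsDiag} = three s t := by
  ext e
  unfold three
  simp only [Set.mem_diff, Set.mem_insert_iff, Set.mem_singleton_iff, Set.mem_setOf_eq,
    and_iff_left_iff_imp]
  rintro (rfl | rfl | rfl) <;> simp

theorem close_edges {s t : V} : (close G s t).edgeSet =
    (Function.Embedding.inl : V ↪ V ⊕ Bool).sym2Map '' G.edgeSet ∪ three s t := by
  unfold close
  rw [edgeSet_sup, edgeSet_map, edgeSet_fromEdgeSet]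
  congr 1
  exact three_diag

theorem close_disj {s t : V} (A : Set (Sym2 V)) :
    Disjoint ((Function.Embedding.inl : V ↪ V ⊕ Bool).sym2Map '' A) (three s t) := by
  rw [Set.disjoint_left]
  rintro e ⟨e1, _, rfl⟩ h
  induction e1 using Sym2.ind with
  | _ a b =>
    unfold three at h
    simp at h

theorem three_ncard {s t : V} : (three s t).ncard = 3 := by
  unfold three
  rw [Set.ncard_eq_three]
  refine ⟨_, _, _, ?_, ?_, ?_, rfl⟩ <;> simp

theorem close_ncard [Finite V] {s t : V} : (close G s t).edgeSet.ncard = G.edgeSet.ncard + 3 := by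
  rw [close_edges, Set.ncard_union_eq (close_disj _) (Set.toFinite _) (Set.toFinite _),
    Set.ncard_image_of_injective _ (Function.Embedding.injective _), three_ncard]

/-- the inclusion -/
def hom3 (G : SimpleGraph V) (s t : V) : G →g close G s t where
  toFun := Sum.inl
  map_rel' := by
    intro a b h
    exact Or.inl ((map_adj _ _ _ _).2 ⟨a, b, h, rfl, rfl⟩)

theorem exists_map3 {s t : V} (p : G.Walk s t) :
    ∃ p' : (close G s t).Walk (Sum.inl s) (Sum.inl t),
      p'.support = p.support.map Sum.inl ∧ p'.edgeSet = Sym2.map Sum.inl '' p.edgeSet :=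
  ⟨p.map (hom3 G s t), Walk.support_map _ _, Walk.edgeSet_map _ _⟩

theorem close_mem {s t : V} {E : Set (Sym2 V)} (hE : E ∈ paths G s t) :
    (Function.Embedding.inl : V ↪ V ⊕ Bool).sym2Map '' E ∪ three s t ∈
      cycles (close G s t) := by
  obtain ⟨p, hp, rfl⟩ := hE
  have a1 : (close G s t).Adj (Sum.inl t) (Sum.inr false) := by
    refine Or.inr ?_
    rw [fromEdgeSet_adj]
    exact ⟨by simp [three], by simp⟩
  have a2 : (close G s t).Adj (Sum.inr false) (Sum.inr true) := by
    refine Or.inr ?_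
    rw [fromEdgeSet_adj]
    exact ⟨by simp [three], by simp⟩
  have a3 : (close G s t).Adj (Sum.inr true) (Sum.inl s) := by
    refine Or.inr ?_
    rw [fromEdgeSet_adj]
    exact ⟨by simp [three], by simp⟩
  obtain ⟨p', hp1, hp2⟩ := exists_map3 (G := G) p
  set r : (close G s t).Walk (Sum.inl t) (Sum.inr true) :=
    Walk.cons a1 (Walk.cons a2 Walk.nil) with hr
  refine ⟨Sum.inr true, Walk.cons a3 (p'.append r), ?_, ?_⟩
  · rw [Walk.cons_isCycle_iff]
    constructor
    · refine Walk.IsPath.mk' ?_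
      rw [Walk.support_append, hp1, hr, List.nodup_append']
      refine ⟨hp.support_nodup.map Sum.inl_injective, by simp, ?_⟩
      intro x hx hx'
      obtain ⟨a, _, rfl⟩ := List.mem_map.1 hx
      simp at hx'
    · rw [← Walk.mem_edgeSet, Walk.edgeSet_append, hp2, hr, Set.mem_union, not_or]
      constructor
      · rintro ⟨e, _, he⟩
        induction e using Sym2.ind with
        | _ a b => simp at he
      · simp
  · rw [Walk.edgeSet_cons, Walk.edgeSet_append, hp2, hr]
    have h1 : (Function.Embedding.inl : V ↪ V ⊕ Bool).sym2Map '' p.edgeSet =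
      Sym2.map Sum.inl '' p.edgeSet := rfl
    rw [h1]
    unfold three
    ext e
    simp only [Walk.edgeSet_cons, Walk.edgeSet_nil, Set.mem_insert_iff, Set.mem_union,
      Set.mem_empty_iff_false, Set.mem_singleton_iff]
    tauto

theorem R_close {m k : ℕ} (h : R m k) : k ≤ c (m + 3) := by
  obtain ⟨V, _, G, s, t, hm, hk⟩ := h
  refine hk.trans ?_
  refine le_trans ?_ (le_csSup (bdd_cs (m + 3))
    ⟨V ⊕ Bool, inferInstance, close G s t, by rw [close_ncard, hm], rfl⟩)
  refine Set.ncard_le_ncard_of_injOn (fun E : Set (Sym2 V) =>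
    (Function.Embedding.inl : V ↪ V ⊕ Bool).sym2Map '' E ∪ three s t)
    (fun E hE => close_mem hE) ?_ (Set.toFinite _)
  intro E hE F hF h
  simp only at h
  have i1 : Function.Injective (Function.Embedding.inl : V ↪ V ⊕ Bool).sym2Map :=
    Function.Embedding.injective _
  have h1 : ∀ A B : Set (Sym2 V), (Function.Embedding.inl : V ↪ V ⊕ Bool).sym2Map '' A ∪ three s t ⊆
      (Function.Embedding.inl : V ↪ V ⊕ Bool).sym2Map '' B ∪ three s t → A ⊆ B := by
    intro A B hAB x hx
    rcases hAB (Or.inl ⟨x, hx, rfl⟩) with ⟨y, hy, hxy⟩ | h2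
    · rwa [← i1 hxy]
    · exact absurd h2 (Set.disjoint_left.1 (close_disj A) ⟨x, hx, rfl⟩)
  exact (h1 _ _ h.le).antisymm (h1 _ _ h.ge)

theorem q_le_c (m : ℕ) : q m ≤ c (m + 3) := R_close (R_q m)

end Pool.Agent.W2helper36.CY
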