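import Pool.Agent.W2helper36.CY.B

/-!
# The growth rate
-/

set_option autoImplicit false
open SimpleGraph Filter Topology

namespace Pool.Agent.W2helper36.CY

theorem sub : Subadditive fun m => -Real.log (q m) := by
  intro a b
  have h1 : (1 : ℝ) ≤ q a := by exact_mod_cast q_pos a
  have h2 : (1 : ℝ) ≤ q b := by exact_mod_cast q_pos b
  have h3 : (q a : ℝ) * q b ≤ q (a + b) := by exact_mod_cast q_mul a b
  have h4 := Real.log_le_log (by positivity) h3
  rw [Real.log_mul (by positivity) (by positivity)] at h4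
  linarith

theorem bdd : BddBelow (Set.range fun n : ℕ => -Real.log (q n) / n) := by
  refine ⟨-Real.log 2, ?_⟩
  rintro _ ⟨n, rfl⟩
  simp only
  have h1 : (1 : ℝ) ≤ q n := by exact_mod_cast q_pos n
  have h2 : (q n : ℝ) ≤ 2 ^ n := by exact_mod_cast q_le n
  have h3 := Real.log_le_log (by positivity) h2
  rw [Real.log_pow] at h3
  rcases n.eq_zero_or_pos with h | h
  · rw [h]
    simp [Real.log_nonneg]
  · have hn : (0 : ℝ) < n := by exact_mod_cast h
    rw [le_div_iff₀ hn]
    linarith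

/-- the logarithm of the growth rate -/
noncomputable def Lr : ℝ := -sub.lim

theorem tendsto_log : Tendsto (fun n : ℕ => Real.log (q n) / n) atTop (𝓝 Lr) := by
  have h := (sub.tendsto_lim bdd).neg
  refine h.congr fun n => ?_
  ring

theorem log_le (n : ℕ) : Real.log (q n) ≤ n * Lr := by
  rcases n.eq_zero_or_pos with h | h
  · rw [h]
    have h1 : q 0 ≤ 1 := by simpa using q_le 0
    have h2 : (q 0 : ℝ) ≤ 1 := by exact_mod_cast h1
    have h3 : (0 : ℝ) ≤ q 0 := by positivity
    simpa using Real.log_nonpos h3 h2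
  · have hn : (0 : ℝ) < n := by exact_mod_cast h
    have h1 := sub.lim_le_div bdd h.ne'
    rw [le_div_iff₀ hn] at h1
    unfold Lr
    linarith

theorem q_le_exp (n : ℕ) : (q n : ℝ) ≤ Real.exp Lr ^ n := by
  have h1 : (1 : ℝ) ≤ q n := by exact_mod_cast q_pos n
  rw [← Real.exp_nat_mul, ← Real.log_le_iff_le_exp (by linarith)]
  exact log_le n

theorem rpow_eq {x : ℝ} (hx : 0 < x) (n : ℕ) : x ^ (1 / (n : ℝ)) = Real.exp (Real.log x / n) := by
  rw [Real.rpow_def_of_pos hx]
  congr 1
  ring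

theorem tendsto_q : Tendsto (fun n : ℕ => (q n : ℝ) ^ (1 / (n : ℝ))) atTop
    (𝓝 (Real.exp Lr)) := by
  have h := (Real.continuous_exp.tendsto _).comp tendsto_log
  refine h.congr fun n => ?_
  have h1 : (1 : ℝ) ≤ q n := by exact_mod_cast q_pos n
  rw [rpow_eq (by linarith)]
  rfl

theorem c_le {m : ℕ} (hm : 1 ≤ m) : (c m : ℝ) ≤ m / 3 * Real.exp Lr ^ (m - 1) := by
  obtain ⟨n, rfl⟩ : ∃ n, m = n + 1 := ⟨m - 1, by omega⟩
  have h1 : (3 : ℝ) * c (n + 1) ≤ (n + 1) * q n := by exact_mod_cast c_upper n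
  have h2 := q_le_exp n
  rw [Nat.add_sub_cancel]
  push_cast
  have h3 : ((n : ℝ) + 1) * q n ≤ (n + 1) * Real.exp Lr ^ n := by gcongr
  linarith

theorem le_c (m : ℕ) : 1 ≤ c (m + 3) := (q_pos m).trans (q_le_c m)

theorem tendsto_c : Tendsto (fun n : ℕ => (c n : ℝ) ^ (1 / (n : ℝ))) atTop
    (𝓝 (Real.exp Lr)) := by
  have hn : Tendsto (fun n : ℕ => (n : ℝ)) atTop atTop := tendsto_natCast_atTop_atTop
  have hlow : Tendsto (fun n : ℕ => Real.exp (Real.log (q (n - 3)) / ((n - 3 : ℕ) : ℝ) *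
      (1 - 3 * (n : ℝ)⁻¹))) atTop (𝓝 (Real.exp Lr)) := by
    refine (Real.continuous_exp.tendsto _).comp ?_
    have h1 : Tendsto (fun n : ℕ => n - 3) atTop atTop := tendsto_sub_atTop_nat 3
    have h2 := tendsto_log.comp h1
    have h3 : Tendsto (fun n : ℕ => 1 - 3 * (n : ℝ)⁻¹) atTop (𝓝 1) := by
      have := ((tendsto_inv_atTop_zero.comp hn).const_mul 3).const_sub 1
      simpa using this
    have h4 := h2.mul h3
    rw [mul_one] at h4
    exact h4
  have hupp : Tendsto (fun n : ℕ => Real.exp (Real.log n / n + |Lr| * (n : ℝ)⁻¹ + Lr)) atTop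
      (𝓝 (Real.exp Lr)) := by
    refine (Real.continuous_exp.tendsto _).comp ?_
    have h1 : Tendsto (fun n : ℕ => Real.log n / (n : ℝ)) atTop (𝓝 0) := by
      have := (Real.isLittleO_log_id_atTop.tendsto_div_nhds_zero).comp hn
      exact this
    have h2 : Tendsto (fun n : ℕ => |Lr| * (n : ℝ)⁻¹) atTop (𝓝 0) := by
      have := (tendsto_inv_atTop_zero.comp hn).const_mul |Lr|
      simpa using this
    have h3 := (h1.add h2).add_const Lr
    simpa using h3
  refine tendsto_of_tendsto_of_tendsto_of_le_of_le' hlow hupp ?_ ?_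
  · filter_upwards [eventually_ge_atTop 4] with n hn4
    obtain ⟨m, rfl⟩ : ∃ m, n = m + 3 := ⟨n - 3, by omega⟩
    have hm : (0 : ℝ) < m := by
      have : 0 < m := by omega
      exact_mod_cast this
    have h1 : (1 : ℝ) ≤ q m := by exact_mod_cast q_pos m
    have h2 : (q m : ℝ) ≤ c (m + 3) := by exact_mod_cast q_le_c m
    rw [rpow_eq (by linarith), Nat.add_sub_cancel]
    refine Real.exp_le_exp.2 ?_
    have h3 := Real.log_le_log (by linarith) h2
    push_cast
    have h4 : Real.log (q m) / (m : ℝ) * (1 - 3 * ((m : ℝ) + 3)⁻¹) =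
        Real.log (q m) / ((m : ℝ) + 3) := by
      field_simp
      ring
    rw [h4]
    gcongr
  · filter_upwards [eventually_ge_atTop 4] with n hn4
    have hn0 : (0 : ℝ) < n := by
      have : 0 < n := by omega
      exact_mod_cast this
    have hc1 : (1 : ℝ) ≤ c n := by
      obtain ⟨m, rfl⟩ : ∃ m, n = m + 3 := ⟨n - 3, by omega⟩
      exact_mod_cast le_c m
    rw [rpow_eq (by linarith)]
    refine Real.exp_le_exp.2 ?_
    have h1 := c_le (m := n) (by omega)
    have h2 := Real.log_le_log (by linarith) h1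
    rw [← Real.exp_nat_mul, Real.log_mul (by positivity) (Real.exp_pos _).ne', Real.log_exp,
      Real.log_div hn0.ne' (by norm_num)] at h2
    have h3 : ((n - 1 : ℕ) : ℝ) = n - 1 := by
      rw [Nat.cast_sub (by omega)]
      simp
    rw [h3] at h2
    have h4 : 0 ≤ Real.log 3 := Real.log_nonneg (by norm_num)
    rw [div_le_iff₀ hn0]
    have h5 : (Real.log n / n + |Lr| * (n : ℝ)⁻¹ + Lr) * n = Real.log n + |Lr| + Lr * n := by
      field_simp
    rw [h5]
    have h6 := neg_abs_le Lr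
    nlinarith

end Pool.Agent.W2helper36.CY
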