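import Mathlib

/-!
# A numerical potential for counting paths
-/

set_option autoImplicit false
open Filter Topology

namespace Pool.Agent.W2helper36.CY

/-- the weight of a vertex of degree `n` -/
noncomputable def w (n : ℕ) : ℝ :=
  if n ≤ 1 then 0 else if n = 2 then 0.16903 else if n = 3 then 0.43154 else
    if n = 4 then 0.65427 else 0.1675 * n

/-- the logarithmic weight of a starting vertex of degree `n` -/
noncomputable def a (n : ℕ) : ℝ :=
  if n ≤ 1 then -0.64116 else if n = 2 then -0.21039 else if n = 3 then -0.02941 else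
    if n = 4 then 0.07065 else if n = 5 then 0.12390 else 0.13729

/-- the weight of a starting vertex of degree `n` -/
noncomputable def A (n : ℕ) : ℝ := if n = 0 then 0 else Real.exp (a n)

/-- the weight that a neighbour of degree `n` contributes -/
noncomputable def U (n : ℕ) : ℝ := A (n - 1) * Real.exp (-w (n - 1))

theorem exp_neg_le {y b : ℝ} (hy : 0 ≤ y)
    (h : 1 ≤ b * ∑ i ∈ Finset.range 10, y ^ i / (Nat.factorial i : ℝ)) : Real.exp (-y) ≤ b := by
  have h1 := Real.sum_le_exp_of_nonneg hy 10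
  have h2 : 0 < ∑ i ∈ Finset.range 10, y ^ i / (Nat.factorial i : ℝ) := by
    refine lt_of_lt_of_le ?_ (Finset.single_le_sum (f := fun i => y ^ i / (Nat.factorial i : ℝ))
      (fun i _ => by positivity) (Finset.mem_range.2 (by norm_num : 0 < 10)))
    norm_num
  have hb : 0 ≤ b := by
    by_contra hb
    have := mul_neg_of_neg_of_pos (not_le.1 hb) h2
    linarith
  rw [Real.exp_neg, inv_le_comm₀ (Real.exp_pos _)]
  · rw [inv_le_iff_one_le_mul₀ (by
      by_contra hb'
      have : b = 0 := le_antisymm (not_lt.1 hb') hb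
      rw [this, zero_mul] at h
      linarith)]
    refine h.trans ?_
    rw [mul_comm]
    gcongr
  · by_contra hb'
    have : b = 0 := le_antisymm (not_lt.1 hb') hb
    rw [this, zero_mul] at h
    linarith

theorem w_big {n : ℕ} (h : 5 ≤ n) : w n = 0.1675 * n := by
  unfold w
  rw [if_neg (by omega), if_neg (by omega), if_neg (by omega), if_neg (by omega)]

theorem a_big {n : ℕ} (h : 6 ≤ n) : a n = 0.13729 := by
  unfold a
  rw [if_neg (by omega), if_neg (by omega), if_neg (by omega), if_neg (by omega),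
    if_neg (by omega)]

theorem U_one : U 1 = 0 := by simp [U, A]

theorem U_eq {n : ℕ} (h : 2 ≤ n) : U n = Real.exp (-(w (n - 1) - a (n - 1))) := by
  unfold U A
  rw [if_neg (by omega), ← Real.exp_add]
  congr 1
  ring

theorem U_two : U 2 ≤ 0.52669 := by
  rw [U_eq le_rfl]
  refine exp_neg_le ?_ ?_ <;> norm_num [w, a, Finset.sum_range_succ, Nat.factorial]

theorem U_three : U 3 ≤ 0.68427 := by
  rw [U_eq (by norm_num)]
  refine exp_neg_le ?_ ?_ <;> norm_num [w, a, Finset.sum_range_succ, Nat.factorial]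

theorem U_four : U 4 ≤ 0.63069 := by
  rw [U_eq (by norm_num)]
  refine exp_neg_le ?_ ?_ <;> norm_num [w, a, Finset.sum_range_succ, Nat.factorial]

theorem U_five : U 5 ≤ 0.55788 := by
  rw [U_eq (by norm_num)]
  refine exp_neg_le ?_ ?_ <;> norm_num [w, a, Finset.sum_range_succ, Nat.factorial]

theorem U_six : U 6 ≤ 0.48988 := by
  rw [U_eq (by norm_num)]
  refine exp_neg_le ?_ ?_ <;> norm_num [w, a, Finset.sum_range_succ, Nat.factorial]

theorem U_seven {n : ℕ} (h : 7 ≤ n) : U n ≤ 0.41992 := by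
  rw [U_eq (by omega), w_big (by omega), a_big (by omega)]
  have h1 : Real.exp (-(0.1675 * ((n - 1 : ℕ) : ℝ) - 0.13729)) ≤
      Real.exp (-(0.1675 * 6 - 0.13729)) := by
    refine Real.exp_le_exp.2 ?_
    have : (6 : ℝ) ≤ ((n - 1 : ℕ) : ℝ) := by exact_mod_cast (by omega : 6 ≤ n - 1)
    linarith
  refine h1.trans ?_
  refine exp_neg_le ?_ ?_ <;> norm_num [Finset.sum_range_succ, Nat.factorial]

theorem pair_of {s μ : ℝ} (hs : 0 ≤ s) (h1 : 0 ≤ μ) (h2 : s * 0.52669 ≤ μ + 0.16903)
    (h3 : s * 0.68427 ≤ μ + 0.26251) (h4 : s * 0.63069 ≤ μ + 0.22273)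
    (h5 : s * 0.55788 ≤ μ + 0.18323) (h6 : s * 0.48988 ≤ μ + 0.1675)
    (h7 : s * 0.41992 ≤ μ + 0.1675) {n : ℕ} (hn : 1 ≤ n) :
    s * U n ≤ μ + (w n - w (n - 1)) := by
  rcases lt_or_ge n 7 with h | h
  · interval_cases n
    · rw [U_one]
      norm_num [w]
      exact h1
    · refine (mul_le_mul_of_nonneg_left U_two hs).trans (h2.trans ?_)
      norm_num [w]
    · refine (mul_le_mul_of_nonneg_left U_three hs).trans (h3.trans ?_)
      norm_num [w]
    · refine (mul_le_mul_of_nonneg_left U_four hs).trans (h4.trans ?_)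
      norm_num [w]
    · refine (mul_le_mul_of_nonneg_left U_five hs).trans (h5.trans ?_)
      norm_num [w]
    · refine (mul_le_mul_of_nonneg_left U_six hs).trans (h6.trans ?_)
      norm_num [w]
  · refine (mul_le_mul_of_nonneg_left (U_seven h) hs).trans (h7.trans ?_)
    rw [w_big (by omega), w_big (by omega), Nat.cast_sub (by omega)]
    push_cast
    linarith

theorem exists_pair {d : ℕ} (hd : 1 ≤ d) : ∃ s μ : ℝ, 0 < s ∧
    (∀ n : ℕ, 1 ≤ n → s * U n ≤ μ + (w n - w (n - 1))) ∧
    Real.exp (d * μ - 1) ≤ s * Real.exp (a d) := by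
  have key : ∀ s μ : ℝ, Real.exp (d * μ - 1 - a d) ≤ s →
      Real.exp (d * μ - 1) ≤ s * Real.exp (a d) := by
    intro s μ h
    rw [Real.exp_sub, div_le_iff₀ (Real.exp_pos _)] at h
    exact h
  rcases lt_or_ge d 6 with h | h
  · interval_cases d
    · refine ⟨1.4622, 0.73803, by norm_num, fun n hn => pair_of (by norm_num) (by norm_num)
        (by norm_num) (by norm_num) (by norm_num) (by norm_num) (by norm_num) (by norm_num) hn,
        key _ _ ?_⟩
      have h1 : ((1 : ℕ) : ℝ) * 0.73803 - 1 - a 1 = 0.37919 := by norm_num [a]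
      rw [h1]
      refine (Real.exp_bound' (by norm_num) (by norm_num) (n := 8) (by norm_num)).trans ?_
      norm_num [Finset.sum_range_succ, Nat.factorial]
    · refine ⟨0.7426, 0.24563, by norm_num, fun n hn => pair_of (by norm_num) (by norm_num)
        (by norm_num) (by norm_num) (by norm_num) (by norm_num) (by norm_num) (by norm_num) hn,
        key _ _ ?_⟩
      have h1 : ((2 : ℕ) : ℝ) * 0.24563 - 1 - a 2 = -0.29835 := by norm_num [a]
      rw [h1]
      refine exp_neg_le ?_ ?_ <;> norm_num [Finset.sum_range_succ, Nat.factorial]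
    · refine ⟨0.5425, 0.11942, by norm_num, fun n hn => pair_of (by norm_num) (by norm_num)
        (by norm_num) (by norm_num) (by norm_num) (by norm_num) (by norm_num) (by norm_num) hn,
        key _ _ ?_⟩
      have h1 : ((3 : ℕ) : ℝ) * 0.11942 - 1 - a 3 = -0.61233 := by norm_num [a]
      rw [h1]
      refine exp_neg_le ?_ ?_ <;> norm_num [Finset.sum_range_succ, Nat.factorial]
    · refine ⟨0.4552, 0.07072, by norm_num, fun n hn => pair_of (by norm_num) (by norm_num)
        (by norm_num) (by norm_num) (by norm_num) (by norm_num) (by norm_num) (by norm_num) hn,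
        key _ _ ?_⟩
      have h1 : ((4 : ℕ) : ℝ) * 0.07072 - 1 - a 4 = -0.78777 := by norm_num [a]
      rw [h1]
      refine exp_neg_le ?_ ?_ <;> norm_num [Finset.sum_range_succ, Nat.factorial]
    · refine ⟨0.3799, 0.03106, by norm_num, fun n hn => pair_of (by norm_num) (by norm_num)
        (by norm_num) (by norm_num) (by norm_num) (by norm_num) (by norm_num) (by norm_num) hn,
        key _ _ ?_⟩
      have h1 : ((5 : ℕ) : ℝ) * 0.03106 - 1 - a 5 = -0.9686 := by norm_num [a]
      rw [h1]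
      refine exp_neg_le ?_ ?_ <;> norm_num [Finset.sum_range_succ, Nat.factorial]
  · refine ⟨0.3209, 0, by norm_num, fun n hn => pair_of (by norm_num) (by norm_num)
      (by norm_num) (by norm_num) (by norm_num) (by norm_num) (by norm_num) (by norm_num) hn,
      key _ _ ?_⟩
    have h1 : (d : ℝ) * 0 - 1 - a d = -1.13729 := by
      rw [a_big h]
      norm_num
    rw [h1]
    refine exp_neg_le ?_ ?_ <;> norm_num [Finset.sum_range_succ, Nat.factorial]

/-- the local inequality -/
theorem local_ineq {V : Type} [DecidableEq V] (S : Finset V) (hS : S.Nonempty) (δ : V → ℕ)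
    (hδ : ∀ v ∈ S, 1 ≤ δ v) :
    ∑ v ∈ S, A (δ v - 1) * Real.exp (∑ u ∈ S.erase v, w (δ u - 1)) ≤
      A S.card * Real.exp (∑ u ∈ S, w (δ u)) := by
  have hd : 1 ≤ S.card := hS.card_pos
  obtain ⟨s, μ, hs, h1, h2⟩ := exists_pair hd
  have h3 : ∀ v ∈ S, A (δ v - 1) * Real.exp (∑ u ∈ S.erase v, w (δ u - 1)) =
      U (δ v) * Real.exp (∑ u ∈ S, w (δ u - 1)) := by
    intro v hv
    rw [← Finset.add_sum_erase S (fun u => w (δ u - 1)) hv, Real.exp_add]
    unfold U
    have h4 : Real.exp (-w (δ v - 1)) * Real.exp (w (δ v - 1)) = 1 := by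
      rw [← Real.exp_add, neg_add_cancel, Real.exp_zero]
    linear_combination (-(A (δ v - 1) * Real.exp (∑ u ∈ S.erase v, w (δ u - 1)))) * h4
  rw [Finset.sum_congr rfl h3, ← Finset.sum_mul]
  have h4 : s * ∑ v ∈ S, U (δ v) ≤ Real.exp (s * (∑ v ∈ S, U (δ v)) - 1) := by
    have := Real.add_one_le_exp (s * (∑ v ∈ S, U (δ v)) - 1)
    linarith
  have h5 : s * (∑ v ∈ S, U (δ v)) ≤ S.card * μ + (∑ u ∈ S, w (δ u) - ∑ u ∈ S, w (δ u - 1)) := by
    rw [Finset.mul_sum, ← Finset.sum_sub_distrib, ← nsmul_eq_mul, ← Finset.sum_const,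
      ← Finset.sum_add_distrib]
    exact Finset.sum_le_sum fun v hv => h1 _ (hδ v hv)
  have h6 : s * ∑ v ∈ S, U (δ v) ≤
      (s * Real.exp (a S.card)) *
        Real.exp (∑ u ∈ S, w (δ u) - ∑ u ∈ S, w (δ u - 1)) := by
    refine h4.trans ?_
    refine (Real.exp_le_exp.2 (sub_le_sub_right h5 1)).trans ?_
    have h7 : S.card * μ + (∑ u ∈ S, w (δ u) - ∑ u ∈ S, w (δ u - 1)) - 1 =
        (S.card * μ - 1) + (∑ u ∈ S, w (δ u) - ∑ u ∈ S, w (δ u - 1)) := by ring
    rw [h7, Real.exp_add]
    gcongr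
  have h7 : ∑ v ∈ S, U (δ v) ≤ Real.exp (a S.card) *
      Real.exp (∑ u ∈ S, w (δ u) - ∑ u ∈ S, w (δ u - 1)) := by
    rw [mul_assoc] at h6
    exact le_of_mul_le_mul_left h6 hs
  have h8 : A S.card = Real.exp (a S.card) := by
    unfold A
    rw [if_neg (by omega)]
  rw [h8]
  refine (mul_le_mul_of_nonneg_right h7 (Real.exp_pos _).le).trans (le_of_eq ?_)
  rw [mul_assoc, ← Real.exp_add, sub_add_cancel]

theorem w_nonneg (n : ℕ) : 0 ≤ w n := by
  unfold w
  split_ifs <;> first | positivity | norm_num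

theorem w_le (n : ℕ) : w n ≤ 0.1675 * n := by
  rcases lt_or_ge n 5 with h | h
  · interval_cases n <;> norm_num [w]
  · exact (w_big h).le

theorem a_le (n : ℕ) : a n ≤ 0.13729 := by
  unfold a
  split_ifs <;> norm_num

theorem le_a (n : ℕ) : -0.64116 ≤ a n := by
  unfold a
  split_ifs <;> norm_num

theorem A_nonneg (n : ℕ) : 0 ≤ A n := by
  unfold A
  split_ifs
  · exact le_rfl
  · exact (Real.exp_pos _).le

theorem A_le (n : ℕ) : A n ≤ 2 := by
  unfold A
  split_ifs
  · norm_num
  · refine (Real.exp_le_exp.2 (a_le n)).trans ?_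
    refine (Real.exp_bound' (by norm_num) (by norm_num) (n := 3) (by norm_num)).trans ?_
    norm_num [Finset.sum_range_succ, Nat.factorial]

theorem half_le_A {n : ℕ} (h : 1 ≤ n) : 1 / 2 ≤ A n := by
  unfold A
  rw [if_neg (by omega)]
  refine le_trans ?_ (Real.exp_le_exp.2 (le_a n))
  have h1 := Real.exp_bound' (x := 0.64116) (by norm_num) (by norm_num) (n := 5) (by norm_num)
  have h2 : Real.exp 0.64116 ≤ 2 := by
    refine h1.trans ?_
    norm_num [Finset.sum_range_succ, Nat.factorial]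
  rw [Real.exp_neg, one_div]
  exact inv_anti₀ (Real.exp_pos _) h2

end Pool.Agent.W2helper36.CY
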