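import Pool.Agent.W2helper36.CY.C
import Pool.Agent.W2helper36.CY.D

/-!
# The number of paths is bounded by the potential
-/

set_option autoImplicit false
open SimpleGraph Filter Topology

namespace Pool.Agent.W2helper36.CY

variable {V : Type}

/-- remove all edges at `s` -/
def del (G : SimpleGraph V) (s : V) : SimpleGraph V where
  Adj x y := G.Adj x y ∧ x ≠ s ∧ y ≠ s
  symm := ⟨fun _ _ h => ⟨h.1.symm, h.2.2, h.2.1⟩⟩
  loopless := ⟨fun _ h => G.irrefl h.1⟩

section deg

variable [Fintype V] [DecidableEq V]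

open Classical in
/-- the neighbours -/
noncomputable def nb (G : SimpleGraph V) (v : V) : Finset V := Finset.univ.filter fun u => G.Adj v u

/-- the degree -/
noncomputable def dg (G : SimpleGraph V) (v : V) : ℕ := (nb G v).card

theorem mem_nb {G : SimpleGraph V} {v u : V} : u ∈ nb G v ↔ G.Adj v u := by
  simp [nb]

theorem dg_del_self (G : SimpleGraph V) (s : V) : dg (del G s) s = 0 := by
  unfold dg
  rw [Finset.card_eq_zero, Finset.eq_empty_iff_forall_notMem]
  intro u hu
  rw [mem_nb] at hu
  exact hu.2.1 rfl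

theorem nb_del {G : SimpleGraph V} {s v : V} (hv : v ≠ s) : nb (del G s) v = (nb G v).erase s := by
  ext u
  rw [mem_nb, Finset.mem_erase, mem_nb]
  exact ⟨fun h => ⟨h.2.2, h.1⟩, fun h => ⟨h.2, hv, h.1⟩⟩

theorem dg_del_adj {G : SimpleGraph V} {s v : V} (h : G.Adj s v) :
    dg (del G s) v = dg G v - 1 := by
  unfold dg
  rw [nb_del h.ne', Finset.card_erase_of_mem (mem_nb.2 h.symm)]

theorem dg_del_not {G : SimpleGraph V} {s v : V} (hv : v ≠ s) (h : ¬ G.Adj s v) :
    dg (del G s) v = dg G v := by
  unfold dg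
  rw [nb_del hv, Finset.erase_eq_of_notMem]
  rw [mem_nb]
  exact fun h' => h h'.symm

/-- the potential -/
noncomputable def Ph (G : SimpleGraph V) (s : V) : ℝ :=
  A (dg G s) * Real.exp (∑ v ∈ Finset.univ.erase s, w (dg G v))

theorem Ph_nonneg (G : SimpleGraph V) (s : V) : 0 ≤ Ph G s :=
  mul_nonneg (A_nonneg _) (Real.exp_pos _).le

theorem half_le_Ph {G : SimpleGraph V} {s : V} (h : (nb G s).Nonempty) : 1 / 2 ≤ Ph G s := by
  have h1 := half_le_A (n := dg G s) h.card_pos
  have h2 : 1 ≤ Real.exp (∑ v ∈ Finset.univ.erase s, w (dg G v)) :=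
    Real.one_le_exp (Finset.sum_nonneg fun v _ => w_nonneg _)
  unfold Ph
  nlinarith

theorem Ph_step {G : SimpleGraph V} {s : V} (h : (nb G s).Nonempty) :
    ∑ v ∈ nb G s, Ph (del G s) v ≤ Ph G s := by
  have hsub : nb G s ⊆ Finset.univ.erase s := by
    intro u hu
    exact Finset.mem_erase.2 ⟨(mem_nb.1 hu).ne', Finset.mem_univ _⟩
  set R := ∑ u ∈ (Finset.univ.erase s) \ nb G s, w (dg G u) with hR
  have h1 : ∀ v ∈ nb G s, Ph (del G s) v = A (dg G v - 1) *
      Real.exp (∑ u ∈ (nb G s).erase v, w (dg G u - 1)) * Real.exp R := by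
    intro v hv
    have hv' := mem_nb.1 hv
    have e1 : ∑ u ∈ Finset.univ.erase v, w (dg (del G s) u) =
        ∑ u ∈ (nb G s).erase v, w (dg G u - 1) + R := by
      have f1 := Finset.add_sum_erase Finset.univ (fun u => w (dg (del G s) u)) (Finset.mem_univ v)
      have f2 := Finset.add_sum_erase Finset.univ (fun u => w (dg (del G s) u)) (Finset.mem_univ s)
      have f3 := Finset.sum_sdiff hsub (f := fun u => w (dg (del G s) u))
      have f4 := Finset.add_sum_erase (nb G s) (fun u => w (dg (del G s) u)) hv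
      have f5 : w (dg (del G s) s) = 0 := by
        rw [dg_del_self]
        simp [w]
      have f6 : ∑ u ∈ (nb G s).erase v, w (dg (del G s) u) =
          ∑ u ∈ (nb G s).erase v, w (dg G u - 1) := by
        refine Finset.sum_congr rfl fun u hu => ?_
        rw [dg_del_adj (mem_nb.1 (Finset.mem_erase.1 hu).2)]
      have f7 : ∑ u ∈ (Finset.univ.erase s) \ nb G s, w (dg (del G s) u) = R := by
        refine Finset.sum_congr rfl fun u hu => ?_
        rw [Finset.mem_sdiff, Finset.mem_erase, mem_nb] at hu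
        rw [dg_del_not hu.1.1 hu.2]
      linarith
    unfold Ph
    rw [e1, Real.exp_add, dg_del_adj hv', mul_assoc]
  have h2 : Ph G s = A (nb G s).card * Real.exp (∑ u ∈ nb G s, w (dg G u)) * Real.exp R := by
    unfold Ph
    have f3 := Finset.sum_sdiff hsub (f := fun u => w (dg G u))
    rw [← f3, ← hR, add_comm, Real.exp_add, mul_assoc]
    rfl
  rw [Finset.sum_congr rfl h1, h2, ← Finset.sum_mul]
  refine mul_le_mul_of_nonneg_right ?_ (Real.exp_pos _).le
  refine local_ineq (nb G s) h (dg G) fun v hv => ?_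
  exact Finset.card_pos.2 ⟨s, mem_nb.2 (mem_nb.1 hv).symm⟩

theorem sum_dg (G : SimpleGraph V) : ∑ v, dg G v = 2 * G.edgeSet.ncard := by
  classical
  have h1 := G.sum_degrees_eq_twice_card_edges
  have h2 : ∀ v, G.degree v = dg G v := by
    intro v
    unfold dg SimpleGraph.degree
    congr 1
    ext u
    rw [mem_nb, mem_neighborFinset]
  have h3 : G.edgeFinset.card = G.edgeSet.ncard := by
    rw [Set.ncard_eq_toFinset_card' G.edgeSet]
    rfl
  rw [← h3, ← h1]
  exact Finset.sum_congr rfl fun v _ => (h2 v).symm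

theorem Ph_le (G : SimpleGraph V) (s : V) :
    Ph G s ≤ 2 * Real.exp (0.335 * G.edgeSet.ncard) := by
  unfold Ph
  have h1 : ∑ v ∈ Finset.univ.erase s, w (dg G v) ≤ 0.335 * G.edgeSet.ncard := by
    calc ∑ v ∈ Finset.univ.erase s, w (dg G v) ≤ ∑ v, w (dg G v) :=
          Finset.sum_le_sum_of_subset_of_nonneg (Finset.subset_univ _) fun v _ _ => w_nonneg _
      _ ≤ ∑ v, 0.1675 * (dg G v : ℝ) := Finset.sum_le_sum fun v _ => w_le _
      _ = 0.1675 * ((∑ v, dg G v : ℕ) : ℝ) := by
          rw [← Finset.mul_sum]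
          push_cast
          rfl
      _ = 0.335 * G.edgeSet.ncard := by
          rw [sum_dg]
          push_cast
          ring
  exact mul_le_mul (A_le _) (Real.exp_le_exp.2 h1) (Real.exp_pos _).le (by norm_num)

end deg

/-! ### Recursion for the paths -/

theorem paths_sub_union [Fintype V] [DecidableEq V] {G : SimpleGraph V} {s t : V} (hst : s ≠ t) :
    paths G s t ⊆ ⋃ v ∈ nb G s, (fun E => insert s(s, v) E) '' paths (del G s) v t := by
  rintro E ⟨p, hp, rfl⟩
  cases p with
  | nil => exact absurd rfl hst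
  | @cons _ v _ h p =>
    rw [Walk.cons_isPath_iff] at hp
    have h3 : ∀ e, e ∈ p.edges → e ∈ (del G s).edgeSet := by
      intro e he
      induction e using Sym2.ind with
      | _ x y =>
        have h4 : G.Adj x y := p.edges_subset_edgeSet he
        refine ⟨h4, fun h5 => hp.2 ?_, fun h5 => hp.2 ?_⟩
        · rw [← h5]
          exact p.fst_mem_support_of_mem_edges he
        · rw [← h5]
          exact p.snd_mem_support_of_mem_edges he
    refine Set.mem_iUnion₂.2 ⟨v, mem_nb.2 h, p.edgeSet, ⟨p.transfer _ h3, hp.1.transfer h3, ?_⟩, ?_⟩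
    · rw [Walk.edgeSet_transfer]
    · rw [Walk.edgeSet_cons]

theorem paths_rec [Fintype V] [DecidableEq V] {G : SimpleGraph V} {s t : V} (hst : s ≠ t) :
    (paths G s t).ncard ≤ ∑ v ∈ nb G s, (paths (del G s) v t).ncard := by
  refine (Set.ncard_le_ncard (paths_sub_union hst) (Set.toFinite _)).trans ?_
  refine (Finset.set_ncard_biUnion_le _ _).trans ?_
  exact Finset.sum_le_sum fun v _ => Set.ncard_image_le (Set.toFinite _)

theorem paths_self [Finite V] (G : SimpleGraph V) (t : V) : (paths G t t).ncard ≤ 1 := by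
  have h : paths G t t ⊆ {∅} := by
    rintro E ⟨p, hp, rfl⟩
    rw [Walk.isPath_iff_eq_nil] at hp
    rw [hp]
    exact Walk.edgeSet_nil _
  refine (Set.ncard_le_ncard h (Set.toFinite _)).trans ?_
  rw [Set.ncard_singleton]

theorem del_ncard [Finite V] {G : SimpleGraph V} {s v : V} (h : G.Adj s v) :
    (del G s).edgeSet.ncard < G.edgeSet.ncard := by
  refine Set.ncard_lt_ncard ?_ (Set.toFinite _)
  refine ⟨fun e he => ?_, fun hsub => ?_⟩
  · induction e using Sym2.ind with
    | _ x y => exact he.1
  · have h1 : s(s, v) ∈ (del G s).edgeSet := hsub (by exact h)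
    exact h1.2.1 rfl

theorem paths_le (n : ℕ) : ∀ (V : Type) [Fintype V] [DecidableEq V] (G : SimpleGraph V) (s t : V),
    s ≠ t → G.edgeSet.ncard ≤ n → ((paths G s t).ncard : ℝ) ≤ 2 * n * Ph G s := by
  induction n with
  | zero =>
    intro V _ _ G s t hst hn
    have h1 : nb G s = ∅ := by
      rw [Finset.eq_empty_iff_forall_notMem]
      intro v hv
      have := del_ncard (mem_nb.1 hv)
      omega
    have h2 := paths_rec hst (G := G)
    rw [h1, Finset.sum_empty, Nat.le_zero] at h2
    rw [h2]
    simp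
  | succ n ih =>
    intro V _ _ G s t hst hn
    rcases (nb G s).eq_empty_or_nonempty with h1 | h1
    · have h2 := paths_rec hst (G := G)
      rw [h1, Finset.sum_empty, Nat.le_zero] at h2
      rw [h2]
      have := Ph_nonneg G s
      push_cast
      positivity
    · have h2 : ((paths G s t).ncard : ℝ) ≤ ∑ v ∈ nb G s, ((paths (del G s) v t).ncard : ℝ) := by
        exact_mod_cast paths_rec hst (G := G)
      have h3 : ∀ v ∈ nb G s, ((paths (del G s) v t).ncard : ℝ) ≤
          2 * n * Ph (del G s) v + if v = t then 1 else 0 := by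
        intro v hv
        have h4 : (del G s).edgeSet.ncard ≤ n := by
          have := del_ncard (mem_nb.1 hv)
          omega
        by_cases hvt : v = t
        · rw [if_pos hvt, hvt]
          have h5 : ((paths (del G s) t t).ncard : ℝ) ≤ 1 := by exact_mod_cast paths_self _ t
          have h6 := Ph_nonneg (del G s) t
          have h7 : 0 ≤ 2 * (n : ℝ) * Ph (del G s) t := by positivity
          linarith
        · rw [if_neg hvt, add_zero]
          exact ih V (del G s) v t hvt h4
      have h4 : ∑ v ∈ nb G s, ((paths (del G s) v t).ncard : ℝ) ≤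
          2 * n * Ph G s + 1 := by
        refine (Finset.sum_le_sum h3).trans ?_
        rw [Finset.sum_add_distrib, ← Finset.mul_sum]
        have h5 : 2 * (n : ℝ) * ∑ v ∈ nb G s, Ph (del G s) v ≤ 2 * n * Ph G s := by
          have := Ph_step h1
          gcongr
        have h6 : ∑ v ∈ nb G s, (if v = t then (1 : ℝ) else 0) ≤ 1 := by
          rw [Finset.sum_ite_eq']
          split_ifs <;> norm_num
        linarith
      have h5 := half_le_Ph h1
      push_cast
      linarith

/-- the bound for the number of paths -/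
theorem q_le_num (m : ℕ) : (q m : ℝ) ≤ 4 * (m + 1) * Real.exp (0.335 * m) := by
  obtain ⟨V, _, G, s, t, hm, hk⟩ := R_q m
  have hF : Fintype V := Fintype.ofFinite V
  classical
  have h0 : (q m : ℝ) ≤ (paths G s t).ncard := by exact_mod_cast hk
  refine h0.trans ?_
  have h2 : 1 ≤ Real.exp (0.335 * (m : ℝ)) := Real.one_le_exp (by positivity)
  by_cases hst : s = t
  · rw [hst]
    have h1 : ((paths G t t).ncard : ℝ) ≤ 1 := by exact_mod_cast paths_self G t
    have h3 : (0 : ℝ) ≤ m := by positivity
    nlinarith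
  · have h1 := paths_le m V G s t hst hm.le
    have h3 := Ph_le G s
    rw [hm] at h3
    have h4 : 2 * (m : ℝ) * Ph G s ≤ 2 * m * (2 * Real.exp (0.335 * m)) := by gcongr
    nlinarith

theorem Lr_le : Lr ≤ 0.335 := by
  have hn : Tendsto (fun n : ℕ => (n : ℝ)) atTop atTop := tendsto_natCast_atTop_atTop
  have h1 : Tendsto (fun n : ℕ => Real.log (4 * ((n : ℝ) + 1)) / (n : ℝ) + 0.335) atTop
      (𝓝 (0 + 0.335)) := by
    refine Tendsto.add_const _ ?_
    have h2 : Tendsto (fun x : ℝ => Real.log (4 * (x + 1)) / x) atTop (𝓝 0) := by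
      have h3 : Tendsto (fun x : ℝ => 4 * (x + 1)) atTop atTop :=
        Tendsto.const_mul_atTop (by norm_num) (tendsto_atTop_add_const_right _ _ tendsto_id)
      have h4 := (Real.isLittleO_log_id_atTop.tendsto_div_nhds_zero).comp h3
      have h5 : Tendsto (fun x : ℝ => 4 * (1 + 1 / x)) atTop (𝓝 (4 * (1 + 0))) :=
        ((tendsto_const_nhds.div_atTop tendsto_id).const_add 1).const_mul 4
      have h6 := h4.mul h5
      rw [zero_mul] at h6
      refine h6.congr' ?_
      filter_upwards [eventually_gt_atTop 0] with x hx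
      simp only [Function.comp, id]
      field_simp
    exact h2.comp hn
  rw [zero_add] at h1
  refine le_of_tendsto_of_tendsto tendsto_log h1 ?_
  filter_upwards [eventually_ge_atTop 1] with n hn1
  have hn0 : (0 : ℝ) < n := by exact_mod_cast hn1
  have h2 : (1 : ℝ) ≤ q n := by exact_mod_cast q_pos n
  have h3 := Real.log_le_log (by linarith) (q_le_num n)
  rw [Real.log_mul (by positivity) (Real.exp_pos _).ne', Real.log_exp] at h3
  rw [div_add' _ _ _ hn0.ne', div_le_div_iff_of_pos_right hn0]
  linarith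

theorem exp_Lr_le : Real.exp Lr ≤ 1.398 := by
  refine (Real.exp_le_exp.2 Lr_le).trans ?_
  refine (Real.exp_bound' (by norm_num) (by norm_num) (n := 8) (by norm_num)).trans ?_
  norm_num [Finset.sum_range_succ, Nat.factorial]

end Pool.Agent.W2helper36.CY
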