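import Pool.Agent.W2helper36.CY.E

/-!
# A graph with m edges has at most (m/3) 1.398^(m-1) cycles

Not handed in: this is probably contained in the paper of Dvorak, Morrison, Noel, Norin and Postle
on the number of cycles in terms of the degree sequence.
-/

set_option autoImplicit false
open Filter Topology

namespace Pool.Agent.W2helper36.CY.Kiraly

/-- The edge sets of the cycles of the graph `G`. -/
def cycles {V : Type} (G : SimpleGraph V) : Set (Set (Sym2 V)) :=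
  {E | ∃ (v : V) (w : G.Walk v v), w.IsCycle ∧ w.edgeSet = E}

/-- The largest number of cycles in a finite simple graph with exactly `m` edges. -/
noncomputable def c (m : ℕ) : ℕ :=
  sSup {k | ∃ (V : Type) (_ : Finite V) (G : SimpleGraph V), G.edgeSet.ncard = m ∧
    k = (cycles G).ncard}

open Pool.Agent.W2helper36

theorem bound {m : ℕ} (hm : 1 ≤ m) : (CY.c m : ℝ) ≤ m / 3 * 1.398 ^ (m - 1) := by
  refine (CY.c_le hm).trans ?_
  have h : Real.exp CY.Lr ^ (m - 1) ≤ 1.398 ^ (m - 1) :=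
    pow_le_pow_left₀ (Real.exp_pos _).le CY.exp_Lr_le _
  gcongr

theorem kiraly : ∀ m : ℕ, 1 ≤ m → (CY.c m : ℝ) ≤ 700 * 1.4 ^ m := by
  intro m hm
  refine (bound hm).trans ?_
  have h1 : (m : ℝ) ≤ 700 * (1.4 / 1.398) ^ m := by
    have h2 := one_add_mul_le_pow (a := (1.4 / 1.398 - 1 : ℝ)) (by norm_num) m
    have h3 : (1 : ℝ) + (1.4 / 1.398 - 1) = 1.4 / 1.398 := by ring
    rw [h3] at h2
    have h4 : (m : ℝ) ≤ 700 * (1 + m * (1.4 / 1.398 - 1)) := by
      have : (0 : ℝ) ≤ m := by positivity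
      norm_num
      nlinarith
    linarith
  have h5 : (1.398 : ℝ) ^ (m - 1) ≤ 1.398 ^ m := pow_le_pow_right₀ (by norm_num) (by omega)
  calc (m : ℝ) / 3 * 1.398 ^ (m - 1) ≤ m * 1.398 ^ m := by
        have : (0 : ℝ) ≤ m := by positivity
        have h6 : (m : ℝ) / 3 ≤ m := by linarith
        gcongr
    _ ≤ 700 * (1.4 / 1.398) ^ m * 1.398 ^ m := by gcongr
    _ = 700 * 1.4 ^ m := by
        rw [mul_assoc, ← mul_pow]
        norm_num

theorem growth : Real.exp CY.Lr ≠ (3 : ℝ) ^ (1 / 3 : ℝ) := by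
  intro h
  have h1 := CY.exp_Lr_le
  rw [h] at h1
  have h2 : ((3 : ℝ) ^ (1 / 3 : ℝ)) ^ 3 ≤ 1.398 ^ 3 := pow_le_pow_left₀ (by positivity) h1 3
  rw [← Real.rpow_natCast, ← Real.rpow_mul (by norm_num)] at h2
  norm_num at h2

/-- A graph with `m ≥ 1` edges has at most `(m/3) 1.398^(m-1)` cycles. In particular there is a
constant `C` with `c m ≤ C 1.4^m` for all `m ≥ 1`, and `(c m)^(1/m)` does not tend to `3^(1/3)`. -/
theorem result :
    (∀ m : ℕ, 1 ≤ m → (c m : ℝ) ≤ m / 3 * 1.398 ^ (m - 1)) ∧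
    (∃ C : ℝ, ∀ m : ℕ, 1 ≤ m → (c m : ℝ) ≤ C * 1.4 ^ m) ∧
    ¬ Tendsto (fun m : ℕ => (c m : ℝ) ^ (1 / (m : ℝ))) atTop (𝓝 ((3 : ℝ) ^ (1 / 3 : ℝ))) :=
  ⟨fun _ hm => bound hm, ⟨700, kiraly⟩, fun h => growth (tendsto_nhds_unique CY.tendsto_c h)⟩

end Pool.Agent.W2helper36.CY.Kiraly
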